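import Pool.Agent.H47.PL.Targets2
import Pool.Agent.H47.PL.FNP

/-!
Row LNB of the board `pln_modules` (MP_c62aed_lc): the numbers.
-/

set_option autoImplicit false

namespace Pool.Agent.H20.PL

open Finset Pool.Agent.H97.RK Pool.Agent.H47.PL

theorem lnb_step (N b : ℕ) (R : ℝ) (hR : 0 ≤ R) (hb : (N : ℝ) - b ≤ R * (b + 1)) (t : ℕ) :
    (N.choose (b + t) : ℝ) ≤ N.choose b * R ^ t := by
  induction t with
  | zero => simp
  | succ t ih =>
    have h1 : (N.choose (b + t + 1) : ℝ) * (b + t + 1) = N.choose (b + t) * ((N - (b + t) : ℕ) : ℝ) := by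
      exact_mod_cast Nat.choose_succ_right_eq N (b + t)
    have h2 : ((N - (b + t) : ℕ) : ℝ) ≤ R * (b + t + 1) := by
      rcases le_total (b + t) N with h | h
      · rw [Nat.cast_sub h]
        push_cast
        have h3 : (0 : ℝ) ≤ t := Nat.cast_nonneg t
        nlinarith [mul_nonneg hR h3]
      · rw [Nat.sub_eq_zero_of_le h]
        push_cast
        positivity
    have h3 : (0 : ℝ) < b + t + 1 := by positivity
    have h4 : (N.choose (b + t + 1) : ℝ) * (b + t + 1) ≤ (N.choose b * R ^ (t + 1)) * (b + t + 1) := by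
      rw [h1]
      calc (N.choose (b + t) : ℝ) * ((N - (b + t) : ℕ) : ℝ)
          ≤ (N.choose b * R ^ t) * (R * (b + t + 1)) :=
            mul_le_mul ih h2 (Nat.cast_nonneg _) (by positivity)
        _ = (N.choose b * R ^ (t + 1)) * (b + t + 1) := by ring
    exact le_of_mul_le_mul_right h4 h3

theorem lnb_mid (N : ℕ) : (2 : ℝ) ^ N ≤ (N + 1) * N.choose (N / 2) := by
  have h1 : 2 ^ N ≤ (N + 1) * N.choose (N / 2) := by
    rw [← Nat.sum_range_choose N]
    calc ∑ m ∈ range (N + 1), N.choose m ≤ ∑ _m ∈ range (N + 1), N.choose (N / 2) :=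
          sum_le_sum fun m _ => Nat.choose_le_middle m N
      _ = (N + 1) * N.choose (N / 2) := by rw [sum_const, card_range, smul_eq_mul]
  exact_mod_cast h1

theorem pf_LNB (hBLB : T_BLB) : T_LNB := by
  intro δ hδ
  obtain ⟨ξ, hξ, hbl⟩ := hBLB (δ / 4) (by positivity)
  obtain ⟨K1, hK1⟩ := exp_num (δ / 8) (by positivity)
  obtain ⟨α, hα0, hα1, hα2, hα3⟩ : ∃ α : ℝ, 0 < α ∧ α ≤ 1 / 32 ∧ α ≤ ξ / 6 ∧ α ≤ δ / 8 :=
    ⟨min (1 / 32) (min (ξ / 6) (δ / 8)), by positivity, min_le_left _ _,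
      (min_le_right _ _).trans (min_le_left _ _), (min_le_right _ _).trans (min_le_right _ _)⟩
  obtain ⟨K2, hK2⟩ := exists_nat_ge (2 / ξ)
  obtain ⟨K3, hK3⟩ := exists_nat_ge (1 / α)
  refine ⟨α, hα0, by linarith, K1 + K2 + K3 + 6, ?_⟩
  intro n hn
  have hn1 : K1 ≤ n := by omega
  have hn2 : (K2 : ℝ) ≤ n := by exact_mod_cast (by omega : K2 ≤ n)
  have hn3 : (K3 : ℝ) ≤ n := by exact_mod_cast (by omega : K3 ≤ n)
  have hn6 : (6 : ℝ) ≤ n := by exact_mod_cast (by omega : 6 ≤ n)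
  have hn0 : (0 : ℝ) < n := by linarith
  have e1 : 2 ≤ ξ * n := by
    have := (div_le_iff₀ hξ).mp (hK2.trans hn2)
    linarith
  have e2 : 1 ≤ α * n := by
    have := (div_le_iff₀ hα0).mp (hK3.trans hn3)
    linarith
  obtain ⟨a, ha⟩ : ∃ a : ℕ, a = ⌈3 * α * n⌉₊ := ⟨_, rfl⟩
  obtain ⟨b, hb⟩ : ∃ b : ℕ, b = ⌊(1 - 2 * α) * n / 2⌋₊ := ⟨_, rfl⟩
  have hpos : 0 ≤ (1 - 2 * α) * n / 2 := by
    have : 0 ≤ 1 - 2 * α := by linarith
    positivity
  have a1 : 3 * α * n ≤ a := by rw [ha]; exact Nat.le_ceil _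
  have a2 : (a : ℝ) < 3 * α * n + 1 := by rw [ha]; exact Nat.ceil_lt_add_one (by positivity)
  have b1 : (b : ℝ) ≤ (1 - 2 * α) * n / 2 := by rw [hb]; exact Nat.floor_le hpos
  have b2 : (1 - 2 * α) * n / 2 < b + 1 := by rw [hb]; exact Nat.lt_floor_add_one _
  have hα1n : α * n ≤ 1 / 32 * n := mul_le_mul_of_nonneg_right hα1 hn0.le
  have b3 : (2 : ℝ) * b + 1 ≤ n := by nlinarith
  have b3' : 2 * b + 1 ≤ n := by exact_mod_cast b3
  have b4 : (1 : ℝ) ≤ b := by
    by_contra h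
    push Not at h
    have h1 : b = 0 := by
      have : b < 1 := by exact_mod_cast h
      omega
    rw [h1] at b2
    push_cast at b2
    nlinarith
  have b4' : 1 ≤ b := by exact_mod_cast b4
  have ab : (a : ℝ) < b + 1 := by nlinarith
  have ab' : a ≤ b := by
    have : a < b + 1 := by exact_mod_cast ab
    omega
  refine ⟨a, b, a1, b4', by linarith, by omega, ab', ?_⟩
  -- the small ball
  have c1 : ((n - 1).choose a : ℝ) ≤ (2 : ℝ) ^ (δ / 4 * n) := by
    have h1 : (a : ℝ) ≤ ξ * n := by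
      have h2 : α * n ≤ ξ / 6 * n := mul_le_mul_of_nonneg_right hα2 hn0.le
      nlinarith
    refine le_trans ?_ (hbl n a h1)
    have h2 : (n - 1).choose a ≤ bl n a := by
      refine (Nat.choose_le_choose a (Nat.sub_le n 1)).trans ?_
      unfold bl
      exact single_le_sum (f := fun i => n.choose i) (fun i _ => Nat.zero_le _)
        (mem_range.mpr (Nat.lt_succ_self a))
    exact_mod_cast h2
  -- the binomial coefficient
  obtain ⟨N, hN⟩ : ∃ N : ℕ, n = N + 1 := ⟨n - 1, by omega⟩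
  have hNn : n - 1 = N := by omega
  have hNr : (N : ℝ) = n - 1 := by rw [hN]; push_cast; ring
  have c2 : 1 / ((n - 1).choose b : ℝ) ≤ 2 * n * Real.exp (16 * α ^ 2 * n) / 2 ^ n := by
    rw [hNn]
    obtain ⟨t, ht⟩ : ∃ t : ℕ, N / 2 = b + t := ⟨N / 2 - b, by omega⟩
    have h1 := lnb_step N b (1 + 8 * α) (by positivity) (by
      rw [hNr]
      nlinarith [mul_pos hα0 hn0, mul_nonneg hα0.le (mul_nonneg hα0.le hn0.le)]) t
    rw [← ht] at h1
    have h2 := lnb_mid N
    have h3 : (1 + 8 * α) ^ t ≤ Real.exp (16 * α ^ 2 * n) := by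
      have h4 : (1 + 8 * α) ^ t ≤ Real.exp (8 * α) ^ t := by
        refine pow_le_pow_left₀ (by positivity) ?_ t
        have := Real.add_one_le_exp (8 * α)
        linarith
      refine h4.trans ?_
      rw [← Real.exp_nat_mul]
      refine Real.exp_le_exp.mpr ?_
      have h5 : (t : ℝ) ≤ 2 * (α * n) := by
        have h6 : (2 : ℝ) * (b + t) ≤ N := by
          have : 2 * (b + t) ≤ N := by omega
          exact_mod_cast this
        rw [hNr] at h6
        linarith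
      nlinarith
    have hc : (0 : ℝ) < N.choose b := by
      have : 0 < N.choose b := Nat.choose_pos (by omega)
      exact_mod_cast this
    have h7 : (2 : ℝ) ^ n = 2 * 2 ^ N := by rw [hN, pow_succ]; ring
    rw [div_le_div_iff₀ hc (by positivity), one_mul]
    have h8 : (N : ℝ) + 1 = n := by rw [hNr]; ring
    rw [h8] at h2
    calc (2 : ℝ) ^ n = 2 * 2 ^ N := h7
      _ ≤ 2 * (n * N.choose (N / 2)) := by linarith
      _ ≤ 2 * (n * (N.choose b * (1 + 8 * α) ^ t)) := by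
          refine mul_le_mul_of_nonneg_left ?_ (by norm_num)
          exact mul_le_mul_of_nonneg_left h1 hn0.le
      _ ≤ 2 * (n * (N.choose b * Real.exp (16 * α ^ 2 * n))) := by
          refine mul_le_mul_of_nonneg_left ?_ (by norm_num)
          refine mul_le_mul_of_nonneg_left ?_ hn0.le
          exact mul_le_mul_of_nonneg_left h3 hc.le
      _ = 2 * n * Real.exp (16 * α ^ 2 * n) * N.choose b := by ring
  have c3 : Real.exp (16 * α ^ 2 * n) ≤ (2 : ℝ) ^ (δ / 4 * n) := by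
    rw [Real.rpow_def_of_pos (by norm_num)]
    refine Real.exp_le_exp.mpr ?_
    have hl : (1 : ℝ) / 2 ≤ Real.log 2 := by
      have := Real.log_two_gt_d9
      linarith
    have h1 : 16 * α ^ 2 ≤ δ / 8 := by nlinarith
    have h2 : 16 * α ^ 2 * n ≤ δ / 8 * n := mul_le_mul_of_nonneg_right h1 hn0.le
    have h3 : 0 ≤ δ / 4 * n := by positivity
    nlinarith
  have c4 : (4 * n + 2 : ℝ) ≤ (2 : ℝ) ^ (δ / 4 * n) := by
    have h1 := hK1 n hn1
    have h2 : (2 : ℝ) ^ (δ / 4 * n) = (2 : ℝ) ^ (δ / 8 * n) * (2 : ℝ) ^ (δ / 8 * n) := by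
      rw [← Real.rpow_add (by norm_num)]
      congr 1
      ring
    rw [h2]
    have h3 : (4 * n + 2 : ℝ) ≤ (4 * n) * (4 * n) := by nlinarith
    exact h3.trans (mul_le_mul h1 h1 (by positivity) (by positivity))
  have hE : 1 ≤ Real.exp (16 * α ^ 2 * n) := Real.one_le_exp (by positivity)
  have c5 : 2 * ((n : ℝ) + 1) / 2 ^ n + 1 / ((n - 1).choose b : ℝ) ≤
      ((2 : ℝ) ^ (δ / 4 * n) * (2 : ℝ) ^ (δ / 4 * n)) / 2 ^ n := by
    calc 2 * ((n : ℝ) + 1) / 2 ^ n + 1 / ((n - 1).choose b : ℝ)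
        ≤ 2 * ((n : ℝ) + 1) / 2 ^ n + 2 * n * Real.exp (16 * α ^ 2 * n) / 2 ^ n := by linarith
      _ = (2 * ((n : ℝ) + 1) + 2 * n * Real.exp (16 * α ^ 2 * n)) / 2 ^ n := by ring
      _ ≤ ((4 * n + 2) * Real.exp (16 * α ^ 2 * n)) / 2 ^ n := by
          refine div_le_div_of_nonneg_right ?_ (by positivity)
          nlinarith
      _ ≤ ((2 : ℝ) ^ (δ / 4 * n) * (2 : ℝ) ^ (δ / 4 * n)) / 2 ^ n := by
          refine div_le_div_of_nonneg_right ?_ (by positivity)
          exact mul_le_mul c4 c3 (by positivity) (by positivity)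
  calc ((n - 1).choose a : ℝ) * (2 * ((n : ℝ) + 1) / 2 ^ n + 1 / ((n - 1).choose b : ℝ))
      ≤ (2 : ℝ) ^ (δ / 4 * n) * (((2 : ℝ) ^ (δ / 4 * n) * (2 : ℝ) ^ (δ / 4 * n)) / 2 ^ n) :=
        mul_le_mul c1 c5 (by positivity) (by positivity)
    _ = (2 : ℝ) ^ (3 * δ / 4 * n) / 2 ^ n := by
        rw [mul_div_assoc', ← Real.rpow_add (by norm_num), ← Real.rpow_add (by norm_num)]
        congr 2
        ring
    _ ≤ (2 : ℝ) ^ (δ * n) / 2 ^ n := by
        refine div_le_div_of_nonneg_right ?_ (by positivity)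
        refine Real.rpow_le_rpow_of_exponent_le (by norm_num) ?_
        nlinarith

end Pool.Agent.H20.PL
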